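import Pool.Agent.Run7.h900.BR.Defs

/-! Project BR (helper900), piece SUB. -/

set_option autoImplicit false

namespace Pool.Agent.Run7.h531.BR

open Pool.Agent.Run7.h900.BR

theorem free_of_fg (G : Type) [CommGroup G] [hG : Group.FG G]
    (htf : ∀ (x : G) (k : ℕ), k ≠ 0 → x ^ k = 1 → x = 1) :
    ∃ n : ℕ, Nonempty (G ≃* Multiplicative (Fin n → ℤ)) := by
  have : AddGroup.FG (Additive G) := by
    rw [AddGroup.fg_iff_addMonoid_fg, ← Monoid.fg_iff_add_fg, ← Group.fg_iff_monoid_fg]
    exact hG
  have : Module.Finite ℤ (Additive G) := Module.Finite.iff_addGroup_fg.2 this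
  have : IsAddTorsionFree (Additive G) := by
    constructor
    intro n hn a b hab
    have h1 : n • (a - b) = 0 := by
      rw [nsmul_sub]
      exact sub_eq_zero.2 hab
    have h2 : (Additive.toMul (a - b)) ^ n = 1 := h1
    exact sub_eq_zero.1 (htf _ n hn h2)
  have : Module.Free ℤ (Additive G) := inferInstance
  let b := Module.finBasis ℤ (Additive G)
  refine ⟨Module.finrank ℤ (Additive G), ⟨?_⟩⟩
  exact
    { toFun := fun x => Multiplicative.ofAdd (b.equivFun (Additive.ofMul x))
      invFun := fun y => Additive.toMul (b.equivFun.symm (Multiplicative.toAdd y))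
      left_inv := fun x => by
        show Additive.toMul (b.equivFun.symm (b.equivFun (Additive.ofMul x))) = x
        rw [LinearEquiv.symm_apply_apply]
        rfl
      right_inv := fun y => by
        show Multiplicative.ofAdd (b.equivFun (b.equivFun.symm (Multiplicative.toAdd y))) = y
        rw [LinearEquiv.apply_symm_apply]
        rfl
      map_mul' := fun x y => by
        show Multiplicative.ofAdd (b.equivFun (Additive.ofMul x + Additive.ofMul y)) = _
        rw [map_add]
        rfl }

theorem t_SUB : S_SUB := by
  intro Γ _ hFG L _ j hj F _ _ q hcomm htf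
  have hmem : ∀ g, g ∈ (q.comp j).ker ↔ q (j g) = 1 := fun g => by
    rw [MonoidHom.mem_ker]
    rfl
  have hfi : ((q.comp j).ker).FiniteIndex := inferInstance
  have : Group.FG (q.comp j).ker := Subgroup.fg_of_index_ne_zero _
  letI : CommGroup (q.comp j).ker :=
    { (inferInstance : Group (q.comp j).ker) with
      mul_comm := fun a b => Subtype.ext (hj (by
        show j (a.1 * b.1) = j (b.1 * a.1)
        rw [map_mul, map_mul]
        exact hcomm _ _ ((hmem _).1 a.2) ((hmem _).1 b.2))) }
  obtain ⟨n, hn⟩ := free_of_fg (q.comp j).ker (fun x k hk hx => by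
    apply Subtype.ext
    apply hj
    rw [show ((1 : (q.comp j).ker) : Γ) = 1 from rfl, map_one]
    apply htf _ k hk ((hmem _).1 x.2)
    have := congrArg (fun y : (q.comp j).ker => j y.1) hx
    simpa using this)
  exact ⟨(q.comp j).ker, n, inferInstance, hfi.index_ne_zero, hn, hmem⟩

end Pool.Agent.Run7.h531.BR
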